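import Pool.Graph.R_seed8.W26.WsLower
import Pool.Graph.R_seed8.W26.WsHaar

/-!
# Residue classes of the numbers counted by Wirsching's series: tools
-/

set_option autoImplicit false

namespace Pool.Agent.H50.WS

open Finset Pool.Agent.W26.Ws Pool.Agent.H320R2.PD

/-! ### 2 is a primitive root modulo the powers of 3 -/

theorem two_pow_ord : ∀ s : ℕ, ∃ u : ℤ, ¬ (3 : ℤ) ∣ u ∧ (2 : ℤ) ^ (2 * 3 ^ s) = 1 + 3 ^ (s + 1) * u
  | 0 => ⟨1, by norm_num, by norm_num⟩
  | s + 1 => by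
    obtain ⟨u, hu, h⟩ := two_pow_ord s
    refine ⟨u + 3 * (3 ^ s * u ^ 2 + 3 ^ (2 * s) * u ^ 3), ?_, ?_⟩
    · intro hd
      exact hu ((dvd_add_left (Dvd.intro _ rfl)).1 hd)
    · rw [show 2 * 3 ^ (s + 1) = (2 * 3 ^ s) * 3 by ring, pow_mul, h]
      ring

theorem pow_two_hits (s : ℕ) : ∀ y : ℤ, ¬ (3 : ℤ) ∣ y →
    ∃ j < 2 * 3 ^ s, (3 : ℤ) ^ (s + 1) ∣ 2 ^ j - y := by
  induction s with
  | zero =>
    intro y hy
    have h : y % 3 = 1 ∨ y % 3 = 2 := by omega
    rcases h with h | h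
    · exact ⟨0, by norm_num, by norm_num; omega⟩
    · exact ⟨1, by norm_num, by norm_num; omega⟩
  | succ s ih =>
    intro y hy
    obtain ⟨j, hj, v, hv⟩ := ih y hy
    obtain ⟨u, hu, h⟩ := two_pow_ord s
    have h2 : ¬ (3 : ℤ) ∣ 2 ^ j := by
      intro hd
      have := Int.prime_three.dvd_of_dvd_pow hd
      omega
    -- choose the multiple
    have key : ∃ i : ℕ, i < 3 ∧ (3 : ℤ) ∣ v + 2 ^ j * (i * u) := by
      have hp : ¬ (3 : ℤ) ∣ 2 ^ j * u := by
        intro hd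
        rcases Int.prime_three.dvd_or_dvd hd with h' | h'
        · exact h2 h'
        · exact hu h'
      generalize hw : (2 : ℤ) ^ j * u = w at hp
      have e : ∀ i : ℕ, v + 2 ^ j * (i * u) = v + i * w := by
        intro i; rw [← hw]; ring
      have h1 : w % 3 = 1 ∨ w % 3 = 2 := by omega
      have h3 : v % 3 = 0 ∨ v % 3 = 1 ∨ v % 3 = 2 := by omega
      rcases h3 with h3 | h3 | h3
      · exact ⟨0, by norm_num, by rw [e]; push_cast; omega⟩
      · rcases h1 with h1 | h1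
        · exact ⟨2, by norm_num, by rw [e]; push_cast; omega⟩
        · exact ⟨1, by norm_num, by rw [e]; push_cast; omega⟩
      · rcases h1 with h1 | h1
        · exact ⟨1, by norm_num, by rw [e]; push_cast; omega⟩
        · exact ⟨2, by norm_num, by rw [e]; push_cast; omega⟩
    obtain ⟨i, hi, q, hq⟩ := key
    refine ⟨j + i * (2 * 3 ^ s), ?_, ?_⟩
    · have : i * (2 * 3 ^ s) ≤ 2 * (2 * 3 ^ s) := Nat.mul_le_mul_right _ (by omega)
      rw [pow_succ]
      omega
    · rw [pow_add (2 : ℤ) j, mul_comm i, pow_mul, h]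
      have hb : ∃ z : ℤ, (1 + (3 : ℤ) ^ (s + 1) * u) ^ i =
          1 + 3 ^ (s + 1) * (i * u) + 3 ^ (s + 2) * z := by
        interval_cases i
        · exact ⟨0, by simp⟩
        · exact ⟨0, by simp⟩
        · refine ⟨3 ^ s * u ^ 2, ?_⟩
          push_cast
          ring
      obtain ⟨z, hz⟩ := hb
      rw [hz]
      refine ⟨q + 2 ^ j * z, ?_⟩
      have e1 : (3 : ℤ) ^ (s + 1 + 1) = 3 * 3 ^ (s + 1) := by ring
      rw [e1]
      linear_combination hv + (3 : ℤ) ^ (s + 1) * hq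

/-! ### the first `M` steps -/

theorem terras (M : ℕ) : ∀ r y : ℤ, fT^[M] (r + 2 ^ M * y) = fT^[M] r + 3 ^ cod M r * y ∧
    cod M (r + 2 ^ M * y) = cod M r := by
  induction M with
  | zero => intro r y; simp [cod]
  | succ M ih =>
    intro r y
    have e1 : r + 2 ^ (M + 1) * y = r + 2 * (2 ^ M * y) := by ring
    rw [Function.iterate_succ_apply, Function.iterate_succ_apply, cod, cod, e1]
    by_cases hr : r % 2 = 0
    · have h2 : (r + 2 * (2 ^ M * y)) % 2 = 0 := by omega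
      rw [if_pos hr, if_pos h2, fT_even h2, fT_even hr]
      have e2 : (r + 2 * (2 ^ M * y)) / 2 = r / 2 + 2 ^ M * y := by omega
      rw [e2, (ih (r / 2) y).1, (ih (r / 2) y).2, zero_add]
      exact ⟨rfl, rfl⟩
    · have h2 : (r + 2 * (2 ^ M * y)) % 2 ≠ 0 := by omega
      rw [if_neg hr, if_neg h2, fT_odd h2, fT_odd hr]
      have e2 : (3 * (r + 2 * (2 ^ M * y)) + 1) / 2 = (3 * r + 1) / 2 + 2 ^ M * (3 * y) := by
        have : 3 * (r + 2 * (2 ^ M * y)) + 1 = (3 * r + 1) + 2 * (2 ^ M * (3 * y)) := by ring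
        rw [this]
        omega
      rw [e2, (ih _ (3 * y)).1, (ih _ (3 * y)).2]
      refine ⟨?_, rfl⟩
      rw [pow_add, pow_one]
      ring

theorem lift_class {M : ℕ} {r x : ℤ} (h : (3 : ℤ) ^ (cod M r + M) ∣ x - fT^[M] r) :
    ∃ b : ℤ, (6 : ℤ) ^ M ∣ b - r ∧ fT^[M] b = x ∧ cod M b = cod M r := by
  obtain ⟨y, hy⟩ := h
  refine ⟨r + 2 ^ M * (3 ^ M * y), ⟨y, ?_⟩, ?_, (terras M _ _).2⟩
  · rw [show (6 : ℤ) = 2 * 3 by norm_num, mul_pow]; ring
  · rw [(terras M _ _).1]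
    rw [pow_add] at hy
    linear_combination -hy

theorem cod_le (M : ℕ) : ∀ r : ℤ, cod M r ≤ M := by
  induction M with
  | zero => intro r; simp [cod]
  | succ M ih =>
    intro r
    have := ih (fT r)
    rw [cod]
    split_ifs <;> omega

/-! ### words and counted numbers -/

theorem inj_e {ℓ k a : ℕ} (ha : 0 < a) (S : Finset (List ℕ))
    (hS : ∀ w ∈ S, Adm ℓ (k + ℓ) (a : ℤ) w) : ∃ f : List ℕ → ℕ, Set.InjOn f S ∧
      ∀ w ∈ S, f w ∈ Bset ℓ k a ∧
        (3 : ℤ) ^ ℓ * f w = 2 ^ (k + ℓ - w.sum) * (2 ^ w.sum * a - Wo w) := by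
  classical
  have h3 : (0 : ℤ) < 3 ^ ℓ := by positivity
  -- the endpoint
  have key : ∀ w ∈ S, ∃ b : ℕ, b ∈ Bset ℓ k a ∧
      (3 : ℤ) ^ ℓ * b = 2 ^ (k + ℓ - w.sum) * (2 ^ w.sum * a - Wo w) := by
    intro w hw
    obtain ⟨hw1, hw2, hw3, hw4⟩ := hS w hw
    obtain ⟨q, hq⟩ := hw4
    have hq' : (2 ^ w.sum * (a : ℤ) - Wo w) / 3 ^ w.length = q := by
      rw [hq, hw2]; exact Int.mul_ediv_cancel_left q h3.ne'
    have hdv : (3 : ℤ) ^ w.length ∣ 2 ^ w.sum * (a : ℤ) - Wo w := by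
      rw [hw2]; exact ⟨q, hq⟩
    have hreach := endpoint_reach hw1 hdv
    have hcod := endpoint_cod hw1 hdv
    rw [hq'] at hreach hcod
    obtain ⟨j, hj⟩ : ∃ j, k + ℓ = j + w.sum := ⟨k + ℓ - w.sum, by omega⟩
    have hjj : k + ℓ - w.sum = j := by omega
    have hz : fT^[k + ℓ] (2 ^ j * q) = a := by
      rw [hj, add_comm j, Function.iterate_add_apply, fT_halve, hreach]
    have hzpos : 0 < 2 ^ j * q := by
      rw [← fT_iter_pos_iff (k + ℓ), hz]; exact_mod_cast ha
    obtain ⟨b, hb⟩ : ∃ b : ℕ, (b : ℤ) = 2 ^ j * q := ⟨(2 ^ j * q).toNat, Int.toNat_of_nonneg hzpos.le⟩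
    have hc : cod (k + ℓ) (b : ℤ) = ℓ := by
      rw [hb, hj, cod_add, cod_halve, fT_halve, hcod, hw2, zero_add]
    have hodd : ((range (k + ℓ)).filter (fun i => T^[i] b % 2 = 1)).card = ℓ := by
      rw [← cod_eq, hc]
    refine ⟨b, ⟨by rw [← hb] at hzpos; exact_mod_cast hzpos, ?_, ?_, hodd⟩, ?_⟩
    · have := fT_iter_cast (k + ℓ) b
      rw [hb, hz] at this
      exact_mod_cast this.symm
    · have := card_odd_even (k + ℓ) b
      omega
    · rw [hb, hjj, hq]; ring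
  choose! f hf1 hf2 using key
  refine ⟨f, ?_, fun w hw => ⟨hf1 w hw, hf2 w hw⟩⟩
  intro w hw w' hw' hww
  obtain ⟨hw1, hw2, hw3, hw4⟩ := hS w hw
  obtain ⟨hw1', hw2', hw3', hw4'⟩ := hS w' hw'
  have e1 := hf2 w hw
  have e2 := hf2 w' hw'
  rw [hww] at e1
  rw [e1] at e2
  by_cases hℓ : ℓ = 0
  · have := List.eq_nil_of_length_eq_zero (hw2.trans hℓ)
    have h' := List.eq_nil_of_length_eq_zero (hw2'.trans hℓ)
    rw [this, h']
  have hne : w ≠ [] := by rintro rfl; simp at hw2; omega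
  have hne' : w' ≠ [] := by rintro rfl; simp at hw2'; omega
  have o1 := Wo_odd hw1 hne
  have o2 := Wo_odd hw1' hne'
  have e3 : (2 : ℤ) ^ (k + ℓ - w.sum) * Wo w = 2 ^ (k + ℓ - w'.sum) * Wo w' := by
    have p1 : (2 : ℤ) ^ (k + ℓ - w.sum) * 2 ^ w.sum = 2 ^ (k + ℓ) := by
      rw [← pow_add]; congr 1; omega
    have p2 : (2 : ℤ) ^ (k + ℓ - w'.sum) * 2 ^ w'.sum = 2 ^ (k + ℓ) := by
      rw [← pow_add]; congr 1; omega
    linear_combination (a : ℤ) * p1 - (a : ℤ) * p2 - e2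
  have e4 : 2 ^ (k + ℓ - w.sum) * Wo w = 2 ^ (k + ℓ - w'.sum) * Wo w' := by exact_mod_cast e3
  have hsum : w.sum = w'.sum := by
    rcases lt_trichotomy w.sum w'.sum with h | h | h
    · exfalso
      obtain ⟨d, hd⟩ : ∃ d, k + ℓ - w.sum = (d + 1) + (k + ℓ - w'.sum) :=
        ⟨w'.sum - w.sum - 1, by omega⟩
      rw [hd, pow_add, mul_comm (2 ^ (d + 1)), mul_assoc] at e4
      have := Nat.eq_of_mul_eq_mul_left (by positivity) e4
      rw [← this, pow_succ, show 2 ^ d * 2 * Wo w = 2 * (2 ^ d * Wo w) by ring] at o2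
      omega
    · exact h
    · exfalso
      obtain ⟨d, hd⟩ : ∃ d, k + ℓ - w'.sum = (d + 1) + (k + ℓ - w.sum) :=
        ⟨w.sum - w'.sum - 1, by omega⟩
      rw [hd, pow_add, mul_comm (2 ^ (d + 1)), mul_assoc] at e4
      have := Nat.eq_of_mul_eq_mul_left (by positivity) e4.symm
      rw [← this, pow_succ, show 2 ^ d * 2 * Wo w' = 2 * (2 ^ d * Wo w') by ring] at o1
      omega
  rw [hsum] at e4
  have hW := Nat.eq_of_mul_eq_mul_left (by positivity) e4
  exact Wo_inj' hw1 hw1' (hw2.trans hw2'.symm) hsum hW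

/-- the numbers counted by `e ℓ k a` that lie in the class of `r` modulo `6 ^ M` -/
noncomputable def eC (M r ℓ k a : ℕ) : ℕ :=
  {b : ℕ | b ∈ Bset ℓ k a ∧ b ≡ r [MOD 6 ^ M]}.ncard

/-- the words of a fixed length and a fixed size give as many counted numbers in the class -/
theorem card_le_eC {M r n L a : ℕ} (ha : 0 < a) (hM : M ≤ n)
    (S : Finset (List ℕ))
    (hS : ∀ w ∈ S, (∀ e ∈ w, 1 ≤ e) ∧ w ≠ [] ∧ w.length + cod M (r : ℤ) = L ∧
      (3 : ℤ) ^ w.length ∣ 2 ^ w.sum * a - Wo w ∧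
      w.sum + (M + 2 * 3 ^ (2 * M)) ≤ kk n L + L)
    (hsum : ∀ w ∈ S, ∀ w' ∈ S, w.sum = w'.sum) : S.card ≤ eC M r L (kk n L) a := by
  classical
  rcases S.eq_empty_or_nonempty with hSe | ⟨v0, hv0⟩
  · rw [hSe]; simp
  set p := cod M (r : ℤ) with hp
  have hpM : p ≤ M := cod_le M _
  set N := kk n L + L with hN
  have hkn : n ≤ kk n L := by unfold kk; omega
  have hL1 : p + 1 ≤ L := by
    have h1 := (hS v0 hv0).2.2.1
    have h2 := (hS v0 hv0).2.1
    have : 0 < v0.length := List.length_pos_iff.2 h2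
    omega
  set k' := kk n L + p - M with hk'
  have hkN : k' + (L - p) + M = N := by omega
  set x0 : ℤ := fT^[M] (r : ℤ) with hx0
  -- the modified words
  have key : ∀ w ∈ S, ∃ e' : ℕ, 1 ≤ e' ∧ w.dropLast.sum + e' ≤ k' + (L - p) ∧
      (3 : ℤ) ^ (w.dropLast ++ [e']).length ∣
        2 ^ (w.dropLast ++ [e']).sum * (a : ℤ) - Wo (w.dropLast ++ [e']) ∧
      ∀ x : ℤ, (3 : ℤ) ^ (L - p) * x = 2 ^ (k' + (L - p) - (w.dropLast ++ [e']).sum) *
        (2 ^ (w.dropLast ++ [e']).sum * (a : ℤ) - Wo (w.dropLast ++ [e'])) →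
        (3 : ℤ) ^ (p + M) ∣ x - x0 := by
    intro w hw
    obtain ⟨h1, h2, h3, h4, h5⟩ := hS w hw
    obtain ⟨w0, e, rfl⟩ : ∃ w0 e, w = w0 ++ [e] := by
      rcases List.eq_nil_or_concat w with h | ⟨w0, e, h⟩
      · exact absurd h h2
      · exact ⟨w0, e, by rw [h, List.concat_eq_append]⟩
    rw [List.dropLast_concat]
    rw [Wo_snoc, List.sum_append, List.sum_singleton, List.length_append, List.length_singleton]
      at h4
    rw [List.sum_append, List.sum_singleton] at h5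
    rw [List.length_append, List.length_singleton] at h3
    have he : 1 ≤ e := h1 e (by simp)
    -- the endpoint of `w0`
    have c1 : (3 : ℤ) ^ w0.length ∣ 2 ^ e * (2 ^ w0.sum * (a : ℤ) - Wo w0) := by
      have d1 : (3 : ℤ) ^ w0.length ∣ 2 ^ (w0.sum + e) * (a : ℤ) -
          ((2 ^ e * Wo w0 + 3 ^ w0.length : ℕ) : ℤ) := (pow_dvd_pow 3 (by omega)).trans h4
      have d2 := dvd_add d1 (dvd_refl ((3 : ℤ) ^ w0.length))
      have e1 : 2 ^ (w0.sum + e) * (a : ℤ) - ((2 ^ e * Wo w0 + 3 ^ w0.length : ℕ) : ℤ) +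
          3 ^ w0.length = 2 ^ e * (2 ^ w0.sum * (a : ℤ) - Wo w0) := by
        push_cast
        ring
      rwa [e1] at d2
    have c2 : (3 : ℤ) ^ w0.length ∣ 2 ^ w0.sum * (a : ℤ) - Wo w0 := by
      have hc : IsCoprime ((3 : ℤ) ^ w0.length) (2 ^ e) := IsCoprime.pow (by norm_num)
      exact hc.dvd_of_dvd_mul_left c1
    obtain ⟨q, hq⟩ := c2
    have c3 : (3 : ℤ) ∣ 2 ^ e * q - 1 := by
      have d1 : (3 : ℤ) ^ w0.length * 3 ∣ 3 ^ w0.length * (2 ^ e * q - 1) := by
        have e1 : 2 ^ (w0.sum + e) * (a : ℤ) - ((2 ^ e * Wo w0 + 3 ^ w0.length : ℕ) : ℤ) =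
            3 ^ w0.length * (2 ^ e * q - 1) := by
          push_cast
          rw [pow_add]
          linear_combination (2 : ℤ) ^ e * hq
        rw [← e1, ← pow_succ]
        exact h4
      exact (mul_dvd_mul_iff_left (by positivity)).1 d1
    have hq3 : ¬ (3 : ℤ) ∣ q := by
      intro hd
      have := (dvd_sub_right (Dvd.dvd.mul_left hd (2 ^ e))).1 c3
      omega
    set t := N - M - w0.sum with ht
    have hpow : 3 ^ (p + M) ≤ 3 ^ (2 * M) := Nat.pow_le_pow_right (by norm_num) (by omega)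
    have hy : ¬ (3 : ℤ) ∣ 2 ^ t * q - 3 * x0 := by
      intro hd
      have h6 : (3 : ℤ) ∣ 2 ^ t * q := (dvd_sub_left (Dvd.intro _ rfl)).1 hd
      rcases Int.prime_three.dvd_or_dvd h6 with h7 | h7
      · have := Int.prime_three.dvd_of_dvd_pow h7
        omega
      · exact hq3 h7
    obtain ⟨j, hj, hj3⟩ := pow_two_hits (p + M) _ hy
    have hjt : j + 1 ≤ t := by omega
    obtain ⟨e', he'⟩ : ∃ e', t = j + e' := ⟨t - j, by omega⟩
    have c4 : (3 : ℤ) ∣ 2 ^ e' * q - 1 := by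
      have d1 : (3 : ℤ) ∣ 2 ^ j - (2 ^ t * q - 3 * x0) := (dvd_pow_self 3 (by omega)).trans hj3
      have d2 : (3 : ℤ) ∣ 2 ^ j * (2 ^ e' * q - 1) := by
        have e1 : 2 ^ j * (2 ^ e' * q - 1) = -(2 ^ j - (2 ^ t * q - 3 * x0)) + 3 * x0 := by
          rw [he', pow_add]; ring
        rw [e1]
        exact dvd_add ((dvd_neg).2 d1) (Dvd.intro _ rfl)
      rcases Int.prime_three.dvd_or_dvd d2 with h7 | h7
      · have := Int.prime_three.dvd_of_dvd_pow h7
        omega
      · exact h7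
    have hsumW : (w0 ++ [e']).sum = w0.sum + e' := by
      rw [List.sum_append, List.sum_singleton]
    have hWo : 2 ^ (w0 ++ [e']).sum * (a : ℤ) - Wo (w0 ++ [e']) =
        3 ^ w0.length * (2 ^ e' * q - 1) := by
      rw [hsumW, Wo_snoc]
      push_cast
      rw [pow_add]
      linear_combination (2 : ℤ) ^ e' * hq
    refine ⟨e', by omega, by omega, ?_, ?_⟩
    · rw [hWo, List.length_append, List.length_singleton, pow_succ]
      exact mul_dvd_mul_left _ c4
    · intro x hx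
      rw [hWo, hsumW] at hx
      have e1 : k' + (L - p) - (w0.sum + e') = j := by omega
      have e2 : L - p = w0.length + 1 := by omega
      rw [e1, e2, pow_succ] at hx
      have e3 : 3 * x = 2 ^ j * (2 ^ e' * q - 1) := by
        have h8 : (3 : ℤ) ^ w0.length * (3 * x) = 3 ^ w0.length * (2 ^ j * (2 ^ e' * q - 1)) := by
          linear_combination hx
        exact mul_left_cancel₀ (by positivity) h8
      have e4 : 3 * (x - x0) = -(2 ^ j - (2 ^ t * q - 3 * x0)) := by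
        rw [he', pow_add]
        linear_combination e3
      have h9 : (3 : ℤ) * 3 ^ (p + M) ∣ 3 * (x - x0) := by
        rw [e4, mul_comm (3 : ℤ), ← pow_succ]
        exact (dvd_neg).2 hj3
      exact (mul_dvd_mul_iff_left (by norm_num)).1 h9
  choose! g hg1 hg2 hg3 hg4 using key
  set W : List ℕ → List ℕ := fun w => w.dropLast ++ [g w] with hW
  have hWsum : ∀ w, (W w).sum = w.dropLast.sum + g w := by
    intro w; rw [hW]; simp
  have hWadm : ∀ v ∈ S.image W, Adm (L - p) (k' + (L - p)) (a : ℤ) v := by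
    intro v hv
    obtain ⟨w, hw, rfl⟩ := Finset.mem_image.1 hv
    obtain ⟨h1, h2, h3, h4, h5⟩ := hS w hw
    have hlen : (W w).length = L - p := by
      have : 0 < w.length := List.length_pos_iff.2 h2
      rw [hW]
      simp only [List.length_append, List.length_dropLast, List.length_singleton]
      omega
    refine ⟨?_, hlen, ?_, ?_⟩
    · intro e he
      rw [hW] at he
      rcases List.mem_append.1 he with h | h
      · exact h1 e (List.dropLast_subset w h)
      · rw [List.mem_singleton] at h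
        rw [h]
        exact hg1 w hw
    · rw [hWsum]; exact hg2 w hw
    · have := hg3 w hw
      rw [← hlen]
      exact this
  obtain ⟨f, hf1, hf2⟩ := inj_e ha (S.image W) hWadm
  have hWinj : Set.InjOn W S := by
    intro w hw w' hw' hww
    obtain ⟨h1, h2, h3, h4, h5⟩ := hS w hw
    obtain ⟨h1', h2', h3', h4', h5'⟩ := hS w' hw'
    have h6 := List.append_inj_left' hww rfl
    rcases List.eq_nil_or_concat w with h | ⟨w0, e, h⟩
    · exact absurd h h2
    rcases List.eq_nil_or_concat w' with h' | ⟨w0', e', h'⟩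
    · exact absurd h' h2'
    have h7 := hsum w hw w' hw'
    rw [List.concat_eq_append] at h h'
    subst h
    subst h'
    rw [List.dropLast_concat, List.dropLast_concat] at h6
    rw [List.sum_append, List.sum_append, List.sum_singleton, List.sum_singleton, h6] at h7
    rw [h6, Nat.add_left_cancel h7]
  -- the counted numbers
  have key2 : ∀ w ∈ S, ∃ b : ℕ, b ∈ {b : ℕ | b ∈ Bset L (kk n L) a ∧ b ≡ r [MOD 6 ^ M]} ∧
      fT^[M] (b : ℤ) = f (W w) := by
    intro w hw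
    have hmem : W w ∈ S.image W := Finset.mem_image_of_mem _ hw
    obtain ⟨⟨b1, b2, b3, b4⟩, b5⟩ := hf2 _ hmem
    have hx := hg4 w hw _ b5
    obtain ⟨b, hb1, hb2, hb3⟩ := lift_class hx
    have hbpos : 0 < b := by
      rw [← fT_iter_pos_iff M, hb2]
      exact_mod_cast b1
    obtain ⟨b', rfl⟩ : ∃ b' : ℕ, b = b' := ⟨b.toNat, (Int.toNat_of_nonneg hbpos.le).symm⟩
    have hN2 : N = M + (k' + (L - p)) := by omega
    have hb4 : fT^[N] (b' : ℤ) = a := by
      rw [hN2, add_comm M, Function.iterate_add_apply, hb2, fT_iter_cast, b2]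
    have hb5 : cod N (b' : ℤ) = L := by
      have h6 : cod (k' + (L - p)) ((f (W w) : ℕ) : ℤ) = L - p := by
        rw [cod_eq, b4]
      rw [hN2, cod_add, hb2, hb3, h6, ← hp]
      omega
    have hodd : ((range N).filter (fun i => T^[i] b' % 2 = 1)).card = L := by
      rw [← cod_eq, hb5]
    refine ⟨b', ⟨⟨by exact_mod_cast hbpos, ?_, ?_, hodd⟩, ?_⟩, hb2⟩
    · rw [fT_iter_cast] at hb4
      exact_mod_cast hb4
    · have := card_odd_even N b'
      rw [← hN]
      omega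
    · rw [Nat.modEq_iff_dvd]
      push_cast
      rw [← dvd_neg, neg_sub]
      exact hb1
  choose! h hh1 hh2 using key2
  unfold eC
  have hfin : {b : ℕ | b ∈ Bset L (kk n L) a ∧ b ≡ r [MOD 6 ^ M]}.Finite :=
    (Bset_finite L (kk n L) a).subset fun b hb => hb.1
  rw [Set.ncard_eq_toFinset_card _ hfin]
  apply Finset.card_le_card_of_injOn h
  · intro w hw
    rw [Set.Finite.coe_toFinset]
    exact hh1 w hw
  · intro w hw w' hw' hww
    have e1 := hh2 w hw
    have e2 := hh2 w' hw'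
    rw [hww, e2] at e1
    have e3 : f (W w') = f (W w) := by exact_mod_cast e1
    exact hWinj hw hw' (hf1 (Finset.mem_image_of_mem _ hw) (Finset.mem_image_of_mem _ hw') e3.symm)

end Pool.Agent.H50.WS
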