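import Pool.Agent.H50.WS.Cls

/-!
# The central part of Wirsching's estimating series
-/

set_option autoImplicit false

namespace Pool.Agent.H50.WS

open Finset Pool.Agent.W26.Ws Pool.Agent.H320R2.PD

theorem pow_a : (2 : ℕ) ^ 84 ≤ 3 ^ 53 := by norm_num

theorem pow_b : (3 : ℕ) ^ 41 ≤ 2 ^ 65 := by norm_num

/-- lower bound for the length -/
theorem len_lower {m T l : ℕ} (h1 : 20 * T ≤ 41 * l) (h2 : 2 ^ m * 3 ^ l < 2 ^ (T + 1)) :
    1060 * m < 493 * l + 1060 := by
  have h3 : 2 ^ (53 * m + 84 * l) < 2 ^ (53 * (T + 1)) := by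
    calc (2 : ℕ) ^ (53 * m + 84 * l) = (2 ^ m) ^ 53 * (2 ^ 84) ^ l := by
          rw [pow_add, ← pow_mul, ← pow_mul, mul_comm m]
      _ ≤ (2 ^ m) ^ 53 * (3 ^ 53) ^ l := Nat.mul_le_mul_left _ (Nat.pow_le_pow_left pow_a l)
      _ = (2 ^ m * 3 ^ l) ^ 53 := by
          rw [mul_pow, ← pow_mul 3 53, ← pow_mul 3 l, mul_comm 53 l]
      _ < (2 ^ (T + 1)) ^ 53 := Nat.pow_lt_pow_left h2 (by norm_num)
      _ = _ := by rw [← pow_mul, mul_comm]
  have h4 := (Nat.pow_lt_pow_iff_right (by norm_num : 1 < 2)).1 h3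
  omega

/-- upper bound for the length -/
theorem len_upper {m T l : ℕ} (h1 : 39 * l ≤ 20 * T) (h2 : 2 ^ T ≤ 2 ^ m * 3 ^ l) :
    299 * l ≤ 820 * m := by
  have h3 : 2 ^ (41 * T) ≤ 2 ^ (41 * m + 65 * l) := by
    calc (2 : ℕ) ^ (41 * T) = (2 ^ T) ^ 41 := by rw [← pow_mul, mul_comm]
      _ ≤ (2 ^ m * 3 ^ l) ^ 41 := Nat.pow_le_pow_left h2 41
      _ = (2 ^ m) ^ 41 * (3 ^ 41) ^ l := by
          rw [mul_pow, ← pow_mul 3 41, ← pow_mul 3 l, mul_comm 41 l]
      _ ≤ (2 ^ m) ^ 41 * (2 ^ 65) ^ l := Nat.mul_le_mul_left _ (Nat.pow_le_pow_left pow_b l)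
      _ = _ := by rw [pow_add, ← pow_mul, ← pow_mul, mul_comm m]
  have h4 := (Nat.pow_le_pow_iff_right (by norm_num : 1 < 2)).1 h3
  omega

/-- the words of the central lengths -/
theorem core3 : ∃ c : ℝ, 0 < c ∧ ∃ D n0 : ℕ, ∀ n : ℕ, n0 ≤ n → ∀ a : ℤ, ¬ (3 : ℤ) ∣ a →
    ∃ S : Finset (List ℕ), (∀ w ∈ S, (∀ e ∈ w, 1 ≤ e) ∧ w ≠ [] ∧
      (3 : ℤ) ^ w.length ∣ 2 ^ w.sum * a - Wo w ∧ 1060 * n ≤ 493 * w.length + D ∧
      299 * w.length ≤ 820 * n + D ∧
      (2 : ℝ) ^ w.sum ≤ 2 ^ n * 3 ^ w.length) ∧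
      (∀ w ∈ S, ∀ w' ∈ S, w.length = w'.length → w.sum = w'.sum) ∧ c * 2 ^ n ≤ S.card := by
  classical
  obtain ⟨N0, N, r, hN0, hN1, hr, hgood⟩ := good_class
  obtain ⟨K, hK2, hK⟩ := Cnt.count_uniform quenched hN0
  obtain ⟨L, B, hLB⟩ := hit_unif N r hr
  obtain ⟨n0, hn0⟩ := pow_unbounded_of_one_lt (K * 2 ^ B) (by norm_num : (1 : ℝ) < 2)
  refine ⟨1 / (64 * 2 ^ B), by positivity, 1060 * (B + 1) + 299 * L, n0 + B, fun n hn a ha => ?_⟩
  obtain ⟨m, hm⟩ : ∃ m, n = B + m := ⟨n - B, by omega⟩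
  set Y : ℝ := 2 ^ n / 2 ^ B with hY
  have hYm : Y = 2 ^ m := by
    rw [hY, hm, pow_add, mul_div_cancel_left₀ _ (by positivity)]
  have hYK : K ≤ Y := by
    rw [hY, le_div_iff₀ (by positivity)]
    exact hn0.le.trans (pow_le_pow_right₀ (by norm_num) (by omega))
  obtain ⟨u, j, hu1, hu2, hu3, hu4, hu5⟩ := hLB a ha
  set z0 : ℤ := (2 ^ u.sum * a - Wo u) / 3 ^ u.length with hz0
  have hz0' : (3 : ℤ) ^ u.length * z0 = 2 ^ u.sum * a - Wo u := Int.mul_ediv_cancel' hu4
  obtain ⟨S0, hS0, hcard⟩ := hK (2 ^ j * z0) (hgood _ hu5) Y hYK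
  have hcs : ∀ w : List ℕ, w ≠ [] → (comb u j w).sum = u.sum + j + w.sum := by
    intro w hw
    cases w with
    | nil => exact absurd rfl hw
    | cons e w => simp only [comb, List.sum_append, List.sum_cons]; ring
  have hcl : ∀ w : List ℕ, w ≠ [] → (comb u j w).length = u.length + w.length := by
    intro w hw
    cases w with
    | nil => exact absurd rfl hw
    | cons e w => simp only [comb, List.length_append, List.length_cons]
  have hne : ∀ w ∈ S0, w ≠ [] := by
    intro w hw h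
    have := (hS0 w hw).2.2.1
    rw [h] at this
    simp at this
    omega
  refine ⟨S0.image (comb u j), ?_, ?_, ?_⟩
  · intro v hv
    obtain ⟨w, hw, rfl⟩ := Finset.mem_image.1 hv
    obtain ⟨h1, h2, h3, h4, h5, h6, h7, h8, h9⟩ := hS0 w hw
    have hnice := (h4 w.length (hN0.trans h3) le_rfl).1
    rw [List.take_length] at hnice
    have hlow : 1060 * m < 493 * w.length + 1060 := by
      refine len_lower h6 ?_
      have : (2 : ℝ) ^ m * 3 ^ w.length < 2 ^ (w.sum + 1) := by
        rw [hYm] at h7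
        rw [pow_succ]
        linarith
      exact_mod_cast this
    have hupp : 299 * w.length ≤ 820 * m := by
      refine len_upper hnice ?_
      rw [hYm] at h8
      exact_mod_cast h8
    cases w with
    | nil => simp at h3; omega
    | cons e w =>
      have hWo : Wo ((e + j) :: w) = Wo (e :: w) := rfl
      have hsum : ((e + j) :: w).sum = j + (e :: w).sum := by
        rw [List.sum_cons, List.sum_cons]; ring
      have hlen : (comb u j (e :: w)).length = u.length + (e :: w).length := by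
        rw [comb, List.length_append]
        rfl
      refine ⟨?_, ?_, ?_, ?_, ?_, ?_⟩
      · intro x hx
        rw [comb, List.mem_append] at hx
        rcases hx with hx | hx
        · exact hu1 x hx
        · rcases List.mem_cons.1 hx with rfl | hx
          · have := h1 e List.mem_cons_self
            omega
          · exact h1 x (List.mem_cons_of_mem _ hx)
      · intro h
        have := hcl (e :: w) (by simp)
        rw [h] at this
        simp at this
      · obtain ⟨q, hq⟩ := h2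
        refine ⟨q, ?_⟩
        rw [comb, Wo_append, hWo, List.sum_append, hsum, List.length_append]
        have hl : ((e + j) :: w).length = (e :: w).length := rfl
        rw [hl]
        push_cast
        rw [pow_add, pow_add, pow_add]
        linear_combination (3 : ℤ) ^ u.length * hq - (2 : ℤ) ^ j * 2 ^ (e :: w).sum * hz0'
      · rw [hlen]
        omega
      · rw [hlen]
        omega
      · rw [comb, List.sum_append, hsum, List.length_append]
        have hl : ((e + j) :: w).length = (e :: w).length := rfl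
        rw [hl]
        have e1 : (2 : ℝ) ^ (u.sum + (j + (e :: w).sum)) = 2 ^ (u.sum + j) * 2 ^ (e :: w).sum := by
          rw [← pow_add]; congr 1; ring
        have e2 : (2 : ℝ) ^ (u.sum + j) ≤ 2 ^ B := pow_le_pow_right₀ (by norm_num) hu3
        have e3 : (2 : ℝ) ^ n = 2 ^ B * Y := by rw [hY]; field_simp
        have e4 : (1 : ℝ) ≤ 3 ^ u.length := one_le_pow₀ (by norm_num)
        have e5 : (3 : ℝ) ^ (u.length + (e :: w).length) = 3 ^ u.length * 3 ^ (e :: w).length :=
          pow_add _ _ _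
        rw [e1, e5, e3]
        calc (2 : ℝ) ^ (u.sum + j) * 2 ^ (e :: w).sum
            ≤ 2 ^ B * (Y * 3 ^ (e :: w).length) :=
              mul_le_mul e2 h8 (by positivity) (by positivity)
          _ ≤ 3 ^ u.length * (2 ^ B * (Y * 3 ^ (e :: w).length)) := by
              apply le_mul_of_one_le_left _ e4
              have : 0 ≤ Y := by linarith
              positivity
          _ = _ := by ring
  · intro v hv v' hv' hl
    obtain ⟨w, hw, rfl⟩ := Finset.mem_image.1 hv
    obtain ⟨w', hw', rfl⟩ := Finset.mem_image.1 hv'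
    rw [hcl w (hne w hw), hcl w' (hne w' hw')] at hl
    rw [hcs w (hne w hw), hcs w' (hne w' hw')]
    obtain ⟨_, _, _, _, _, _, h7, h8, _⟩ := hS0 w hw
    obtain ⟨_, _, _, _, _, _, h7', h8', _⟩ := hS0 w' hw'
    have hl' : w.length = w'.length := by omega
    rw [hl'] at h7 h8
    have a1 : (2 : ℝ) ^ w.sum < 2 ^ (w'.sum + 1) := by rw [pow_succ]; linarith
    have a2 : (2 : ℝ) ^ w'.sum < 2 ^ (w.sum + 1) := by rw [pow_succ]; linarith
    have b1 := (pow_lt_pow_iff_right₀ (by norm_num : (1 : ℝ) < 2)).1 a1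
    have b2 := (pow_lt_pow_iff_right₀ (by norm_num : (1 : ℝ) < 2)).1 a2
    omega
  · rw [Finset.card_image_of_injOn]
    · refine le_trans (le_of_eq ?_) hcard
      rw [hY]; field_simp
    · intro w hw w' hw' hww
      have hl : 1 ≤ w.length := by
        have := (hS0 w hw).2.2.1
        omega
      have hl' : 1 ≤ w'.length := by
        have := (hS0 w' hw').2.2.1
        omega
      cases w with
      | nil => simp at hl
      | cons e w =>
        cases w' with
        | nil => simp at hl'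
        | cons e' w' =>
          simp only [comb] at hww
          have := List.append_cancel_left hww
          rw [List.cons.injEq] at this
          rw [List.cons.injEq]
          exact ⟨by omega, this.2⟩

/-- the central range of the summation index -/
def window (n : ℕ) : Finset ℕ := (range (3 * n + 1)).filter fun ℓ => 43 * n ≤ 20 * ℓ ∧ 20 * ℓ ≤ 55 * n

theorem main_class : ∃ c : ℝ, 0 < c ∧ ∃ A : ℕ, ∀ M n : ℕ, A * 9 ^ M ≤ n → ∀ r : ℕ,
    ∀ a : ℤ, ¬ (3 : ℤ) ∣ a → ∀ α : ℕ → ℕ, (∀ L, 0 < α L) →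
    (∀ L ∈ window n, (3 : ℤ) ^ L ∣ (α L : ℤ) - a) →
    ENNReal.ofReal (c / 2 ^ (M + 2 * 9 ^ M) * 2 ^ n) ≤
      ∑ L ∈ window n, (eC M r L (kk n L) (α L) : ENNReal) := by
  classical
  obtain ⟨c, hc, D, n0, hcore⟩ := core3
  refine ⟨c, hc, 63600 + 20 * D + n0 + 6000, fun M n hn r a ha α hα0 hα => ?_⟩
  have h9 : 1 ≤ 9 ^ M := Nat.one_le_pow _ _ (by norm_num)
  have hM9 : M ≤ 9 ^ M := (Nat.lt_pow_self (by norm_num : 1 < 9)).le
  set K := 9 ^ M with hK
  have h39 : 3 ^ (2 * M) = K := by rw [hK, pow_mul]; norm_num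
  have g1 : D ≤ D * K := Nat.le_mul_of_pos_right _ h9
  have g2 : n0 ≤ n0 * K := Nat.le_mul_of_pos_right _ h9
  have hn' : 63600 * K + 20 * (D * K) + n0 * K + 6000 * K ≤ n := by
    calc _ = (63600 + 20 * D + n0 + 6000) * K := by ring
      _ ≤ n := hn
  obtain ⟨C, hC⟩ : ∃ C, C = M + 2 * K := ⟨_, rfl⟩
  rw [← hC]
  obtain ⟨m, hm⟩ : ∃ m, n = m + C := ⟨n - C, by omega⟩
  obtain ⟨S, hS, hsum, hcard⟩ := hcore m (by omega) a ha
  set p := cod M (r : ℤ) with hp
  have hpM : p ≤ M := cod_le M _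
  have hwin : ∀ w ∈ S, w.length + p ∈ window n := by
    intro w hw
    obtain ⟨h1, h2, h3, h4, h5, h6⟩ := hS w hw
    rw [window, Finset.mem_filter, Finset.mem_range]
    refine ⟨?_, ?_, ?_⟩
    · omega
    · omega
    · omega
  have hcount : ∀ L ∈ window n, (S.filter (fun w => w.length + p = L)).card ≤
      eC M r L (kk n L) (α L) := by
    intro L hL
    apply card_le_eC (hα0 L) (by omega)
    · intro w hw
      obtain ⟨hw1, hw2⟩ := Finset.mem_filter.1 hw
      obtain ⟨h1, h2, h3, h4, h5, h6⟩ := hS w hw1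
      refine ⟨h1, h2, hw2, ?_, ?_⟩
      · have e1 : (2 : ℤ) ^ w.sum * (α L : ℤ) - Wo w =
            (2 ^ w.sum * a - Wo w) + 2 ^ w.sum * ((α L : ℤ) - a) := by ring
        rw [e1]
        apply dvd_add h3
        apply Dvd.dvd.mul_left
        exact (pow_dvd_pow 3 (by omega)).trans (hα L hL)
      · rw [h39, ← hC]
        apply sum_le_kk
        rw [pow_add (2 : ℝ) w.sum C, hm, pow_add (2 : ℝ) m C]
        have e4 : (3 : ℝ) ^ w.length ≤ 3 ^ L := pow_le_pow_right₀ (by norm_num) (by omega)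
        calc (2 : ℝ) ^ w.sum * 2 ^ C ≤ (2 ^ m * 3 ^ w.length) * 2 ^ C :=
              mul_le_mul_of_nonneg_right h6 (by positivity)
          _ ≤ (2 ^ m * 3 ^ L) * 2 ^ C := by
              apply mul_le_mul_of_nonneg_right _ (by positivity)
              exact mul_le_mul_of_nonneg_left e4 (by positivity)
          _ = _ := by ring
    · intro w hw w' hw'
      obtain ⟨hw1, hw2⟩ := Finset.mem_filter.1 hw
      obtain ⟨hw1', hw2'⟩ := Finset.mem_filter.1 hw'
      exact hsum w hw1 w' hw1' (by omega)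
  have h1 : S.card = ∑ L ∈ window n, (S.filter (fun w => w.length + p = L)).card := by
    apply Finset.card_eq_sum_card_fiberwise
    intro w hw
    exact hwin w hw
  have h2 : (S.card : ENNReal) ≤ ∑ L ∈ window n, (eC M r L (kk n L) (α L) : ENNReal) := by
    rw [h1]
    push_cast
    apply Finset.sum_le_sum
    intro L hL
    exact_mod_cast hcount L hL
  have h3 : c / 2 ^ C * 2 ^ n = c * 2 ^ m := by
    rw [hm, pow_add (2 : ℝ) m C]
    field_simp
  rw [h3]
  calc ENNReal.ofReal (c * 2 ^ m) ≤ ENNReal.ofReal (S.card : ℝ) := ENNReal.ofReal_le_ofReal hcard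
    _ = (S.card : ENNReal) := ENNReal.ofReal_natCast _
    _ ≤ _ := h2

end Pool.Agent.H50.WS
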